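import Pool.Agent.Q83.SG.Stm

/-!
# Compactness of the configurations which no finite change improves
-/

set_option autoImplicit false

open MeasureTheory ProbabilityTheory Filter
open scoped ENNReal NNReal

namespace Pool.Agent.Q299.SG

open Pool.Agent.Q83.SG

theorem mem_bonds {m : ℕ} {Λ : Finset (Site m)} {b : Bond m} :
    b ∈ bonds Λ ↔ b.1 ∈ Λ ∨ far b ∈ Λ := by
  unfold bonds
  simp only [Finset.mem_biUnion, Finset.mem_univ, true_and, Finset.mem_insert,
    Finset.mem_singleton]
  constructor
  · rintro ⟨v, hv, a, h | h⟩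
    · left; rw [h]; exact hv
    · right
      rw [h]
      unfold far
      simpa using hv
  · rintro (h | h)
    · exact ⟨b.1, h, b.2, Or.inl rfl⟩
    · refine ⟨far b, h, b.2, Or.inr ?_⟩
      refine Prod.ext ?_ rfl
      simp [far]

theorem sw_sw {m : ℕ} (T T' : Finset (Site m)) (τ : Site m → ℝ) :
    sw T (sw T' τ) = sw (symmDiff T T') τ := by
  classical
  funext v
  unfold sw
  by_cases h : v ∈ T <;> by_cases h' : v ∈ T' <;>
    simp [Finset.mem_symmDiff, h, h']

/-- A local change changes only the bonds which touch it. -/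
theorem pair_sub {m : ℕ} (J : Bond m → ℝ) {T Λ : Finset (Site m)} (hT : T ⊆ Λ)
    (σ : Site m → ℝ) :
    pair J Λ (sw T σ) - pair J Λ σ = pair J T (sw T σ) - pair J T σ := by
  classical
  unfold pair
  rw [← Finset.sum_sub_distrib, ← Finset.sum_sub_distrib]
  symm
  refine Finset.sum_subset ?_ ?_
  · intro b hb
    rw [mem_bonds] at hb ⊢
    exact hb.imp (fun h => hT h) fun h => hT h
  · intro b _ hb
    rw [mem_bonds] at hb
    push Not at hb
    have h1 : sw T σ b.1 = σ b.1 := by unfold sw; rw [if_neg hb.1]
    have h2 : sw T σ (far b) = σ (far b) := by unfold sw; rw [if_neg hb.2]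
    rw [h1, h2, sub_self]

theorem continuous_spin {m : ℕ} (v : Site m) :
    Continuous fun ω : Site m → Bool => spin ω v := by
  unfold spin
  exact (continuous_of_discreteTopology (f := sg)).comp (continuous_apply v)

theorem continuous_sw_spin {m : ℕ} (T : Finset (Site m)) (v : Site m) :
    Continuous fun ω : Site m → Bool => sw T (spin ω) v := by
  classical
  unfold sw
  by_cases hv : v ∈ T
  · simp only [if_pos hv]
    exact (continuous_spin v).neg
  · simp only [if_neg hv]
    exact continuous_spin v

theorem box_mono {m : ℕ} {n n' : ℕ} (h : n ≤ n') : box m n ⊆ box m n' := by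
  unfold box
  have h' : (n : ℤ) ≤ n' := by exact_mod_cast h
  refine Finset.product_subset_product ?_ ?_
  · refine Fintype.piFinset_subset _ _ fun _ => Finset.Icc_subset_Icc (by omega) h'
  · refine Fintype.piFinset_subset _ _ fun _ => Finset.Icc_subset_Icc (by omega) h'

theorem exists_box {m : ℕ} (T : Finset (Site m)) : ∃ n, T ⊆ box m n := by
  classical
  induction T using Finset.induction_on with
  | empty => exact ⟨0, Finset.empty_subset _⟩
  | insert v T _ ih =>
    obtain ⟨n, hn⟩ := ih
    have hv : v ∈ box m (∑ i, (v.1 i).natAbs + ∑ j, (v.2 j).natAbs) := by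
      unfold box
      rw [Finset.mem_product, Fintype.mem_piFinset, Fintype.mem_piFinset]
      refine ⟨fun i => ?_, fun j => ?_⟩
      · have h1 : (v.1 i).natAbs ≤ ∑ i, (v.1 i).natAbs :=
          Finset.single_le_sum (f := fun i => (v.1 i).natAbs) (fun _ _ => Nat.zero_le _)
            (Finset.mem_univ i)
        rw [Finset.mem_Icc]
        push_cast
        have h2 : ((v.1 i).natAbs : ℤ) ≤ ((∑ i, (v.1 i).natAbs : ℕ) : ℤ) := by exact_mod_cast h1
        have h3 : (0 : ℤ) ≤ ((∑ j, (v.2 j).natAbs : ℕ) : ℤ) := by positivity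
        push_cast at h2 h3
        have h4 := abs_le.1 (le_refl |v.1 i|)
        constructor <;> linarith
      · have h1 : (v.2 j).natAbs ≤ ∑ j, (v.2 j).natAbs :=
          Finset.single_le_sum (f := fun j => (v.2 j).natAbs) (fun _ _ => Nat.zero_le _)
            (Finset.mem_univ j)
        rw [Finset.mem_Icc]
        push_cast
        have h2 : ((v.2 j).natAbs : ℤ) ≤ ((∑ j, (v.2 j).natAbs : ℕ) : ℤ) := by exact_mod_cast h1
        have h3 : (0 : ℤ) ≤ ((∑ i, (v.1 i).natAbs : ℕ) : ℤ) := by positivity
        push_cast at h2 h3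
        have h4 := abs_le.1 (le_refl |v.2 j|)
        constructor <;> linarith
    refine ⟨max n (∑ i, (v.1 i).natAbs + ∑ j, (v.2 j).natAbs), ?_⟩
    rw [Finset.insert_subset_iff]
    exact ⟨box_mono (le_max_right _ _) hv, hn.trans (box_mono (le_max_left _ _))⟩

theorem spin_pm {m : ℕ} (ω : Site m → Bool) (v : Site m) : spin ω v = 1 ∨ spin ω v = -1 := by
  unfold spin sg
  by_cases h : ω v
  · left; rw [if_pos h]
  · right; rw [if_neg h]

theorem t_CPT : S_CPT := by
  classical
  intro m k J v p hfr
  let C : ℕ → Set (Site m → Bool) := fun n => {ω | (∀ i, ω (v i) = p i) ∧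
    ∀ T ⊆ box m n, pair J T (sw T (spin ω)) ≤ pair J T (spin ω)}
  have hcont : ∀ (T T' : Finset (Site m)),
      Continuous fun ω : Site m → Bool => pair J T (sw T' (spin ω)) := by
    intro T T'
    unfold pair
    exact continuous_finsetSum _ fun b _ =>
      continuous_const.mul ((continuous_sw_spin T' _).mul (continuous_sw_spin T' _))
  have hcont0 : ∀ (T : Finset (Site m)),
      Continuous fun ω : Site m → Bool => pair J T (spin ω) := by
    intro T
    unfold pair
    exact continuous_finsetSum _ fun b _ =>
      continuous_const.mul ((continuous_spin _).mul (continuous_spin _))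
  have hcl : ∀ n, IsClosed (C n) := by
    intro n
    have h1 : C n = (⋂ i, {ω | ω (v i) = p i}) ∩
        ⋂ T ∈ (box m n).powerset, {ω | pair J T (sw T (spin ω)) ≤ pair J T (spin ω)} := by
      ext ω
      simp only [C, Set.mem_ofPred_eq, Set.mem_inter_iff, Set.mem_iInter, Finset.mem_powerset]
    rw [h1]
    refine (isClosed_iInter fun i => ?_).inter (isClosed_biInter fun T _ => ?_)
    · exact isClosed_eq (continuous_apply _) continuous_const
    · exact isClosed_le (hcont T T) (hcont0 T)
  have hanti : ∀ n, C (n + 1) ⊆ C n := fun n ω hω =>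
    ⟨hω.1, fun T hT => hω.2 T (hT.trans (box_mono (Nat.le_succ n)))⟩
  have hne : ∀ n, (C n).Nonempty := by
    intro n
    obtain ⟨L, ⟨τ, σ, hτ, hmax, hσ⟩, hL⟩ := (hfr.and_eventually (eventually_ge_atTop n)).exists
    have hσpm : ∀ v, σ v = 1 ∨ σ v = -1 := by
      obtain ⟨T, -, rfl⟩ := hmax.1
      intro v
      unfold sw
      by_cases hv : v ∈ T
      · rw [if_pos hv]
        rcases hτ v with h | h <;> rw [h]
        · right; rfl
        · left; norm_num
      · rw [if_neg hv]; exact hτ v
    let ω : Site m → Bool := fun v => decide (σ v = 1)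
    have hsp : spin ω = σ := by
      funext v
      unfold spin sg
      rcases hσpm v with h | h
      · have : ω v = true := by simp [ω, h]
        rw [this, h]; simp
      · have : ω v = false := by
          simp only [ω, h, decide_eq_false_iff_not]
          norm_num
        rw [this, h]; simp
    refine ⟨ω, fun i => ?_, fun T hT => ?_⟩
    · have h1 := hσ i
      rw [← hsp] at h1
      unfold spin sg at h1
      by_cases h2 : ω (v i) = true
      · rw [if_pos h2] at h1
        by_cases h3 : p i = true
        · rw [h2, h3]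
        · rw [if_neg h3] at h1
          norm_num at h1
      · rw [if_neg h2] at h1
        by_cases h3 : p i = true
        · rw [if_pos h3] at h1
          norm_num at h1
        · rw [Bool.not_eq_true] at h2 h3
          rw [h2, h3]
    · rw [hsp]
      have hTL : T ⊆ box m L := hT.trans (box_mono hL)
      have h1 := pair_sub J hTL σ
      obtain ⟨T₀, hT₀, h2⟩ := hmax.1
      have h3 : pair J (box m L) (sw T σ) ≤ pair J (box m L) σ := by
        have h4 : sw T σ = sw (symmDiff T T₀) τ := by rw [h2, sw_sw]
        rw [h4]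
        refine hmax.2 _ ?_
        intro w hw
        rw [Finset.mem_symmDiff] at hw
        rcases hw with hw | hw
        · exact hTL hw.1
        · exact hT₀ hw.1
      linarith
  obtain ⟨ω, hω⟩ := IsCompact.nonempty_iInter_of_sequence_nonempty_isCompact_isClosed C hanti hne
    (hcl 0).isCompact hcl
  rw [Set.mem_iInter] at hω
  refine ⟨spin ω, ⟨spin_pm ω, fun T => ?_⟩, fun i => ?_⟩
  · obtain ⟨n, hn⟩ := exists_box T
    exact (hω n).2 T hn
  · unfold spin
    rw [(hω 0).1 i]

end Pool.Agent.Q299.SG
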