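import Pool.Agent.Q83.SG.Stm

/-!
# Elementary properties of the energies
-/

set_option autoImplicit false

open MeasureTheory ProbabilityTheory Filter
open scoped ENNReal NNReal

namespace Pool.Agent.Q299.SG

open Pool.Agent.Q83.SG

theorem sw_pm {m : ℕ} {τ : Site m → ℝ} (hτ : ∀ v, τ v = 1 ∨ τ v = -1) (T : Finset (Site m))
    (v : Site m) : sw T τ v = 1 ∨ sw T τ v = -1 := by
  unfold sw
  by_cases hv : v ∈ T
  · rw [if_pos hv]
    rcases hτ v with h | h <;> rw [h]
    · right; rfl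
    · left; norm_num
  · rw [if_neg hv]; exact hτ v

theorem pm_mul {a b : ℝ} (ha : a = 1 ∨ a = -1) (hb : b = 1 ∨ b = -1) : |a * b| = 1 := by
  rcases ha with h | h <;> rcases hb with h' | h' <;> rw [h, h'] <;> norm_num

theorem pair_le {m : ℕ} (Λ : Finset (Site m)) {σ : Site m → ℝ} (hσ : ∀ v, σ v = 1 ∨ σ v = -1)
    (J J' : Bond m → ℝ) : pair J Λ σ ≤ pair J' Λ σ + ∑ b ∈ bonds Λ, |J b - J' b| := by
  unfold pair
  rw [← Finset.sum_add_distrib]
  refine Finset.sum_le_sum fun b _ => ?_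
  have h1 : (J b - J' b) * (σ b.1 * σ (far b)) ≤ |J b - J' b| := by
    refine (le_abs_self _).trans ?_
    rw [abs_mul, pm_mul (hσ _) (hσ _), mul_one]
  linarith

theorem mx_le {m : ℕ} (Λ : Finset (Site m)) {τ : Site m → ℝ} (hτ : ∀ v, τ v = 1 ∨ τ v = -1)
    (J J' : Bond m → ℝ) : mx Λ τ J ≤ mx Λ τ J' + ∑ b ∈ bonds Λ, |J b - J' b| := by
  unfold mx
  refine Finset.sup'_le _ _ fun T hT => ?_
  refine (pair_le Λ (sw_pm hτ T) J J').trans ?_
  have := Finset.le_sup' (fun T => pair J' Λ (sw T τ)) hT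
  linarith

theorem lz_le {m : ℕ} (Λ : Finset (Site m)) {τ : Site m → ℝ} (hτ : ∀ v, τ v = 1 ∨ τ v = -1)
    (J J' : Bond m → ℝ) : lz Λ τ J ≤ lz Λ τ J' + ∑ b ∈ bonds Λ, |J b - J' b| := by
  unfold lz
  have hpos : ∀ J : Bond m → ℝ, 0 < ∑ T ∈ Λ.powerset, Real.exp (pair J Λ (sw T τ)) := fun J =>
    Finset.sum_pos (fun T _ => Real.exp_pos _) ⟨∅, Finset.empty_mem_powerset Λ⟩
  have h1 : ∑ T ∈ Λ.powerset, Real.exp (pair J Λ (sw T τ)) ≤
      (∑ T ∈ Λ.powerset, Real.exp (pair J' Λ (sw T τ))) *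
        Real.exp (∑ b ∈ bonds Λ, |J b - J' b|) := by
    rw [Finset.sum_mul]
    refine Finset.sum_le_sum fun T _ => ?_
    rw [← Real.exp_add]
    exact Real.exp_le_exp.2 (pair_le Λ (sw_pm hτ T) J J')
  calc _ ≤ Real.log ((∑ T ∈ Λ.powerset, Real.exp (pair J' Λ (sw T τ))) *
        Real.exp (∑ b ∈ bonds Λ, |J b - J' b|)) := Real.log_le_log (hpos J) h1
    _ = _ := by rw [Real.log_mul (hpos J').ne' (Real.exp_pos _).ne', Real.log_exp]

theorem measurable_plant {m : ℕ} (H : Set (Fin m → ℤ)) {ψ : ℝ → ℝ} (hψ : Measurable ψ)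
    (b : Bond m) : Measurable fun J : Bond m → ℝ => plant H ψ J b := by
  classical
  unfold plant
  by_cases h : b.2.isLeft ∧ b.1.2 ∈ H
  · simp only [h, and_self, if_true]
    exact hψ.comp (measurable_pi_apply b)
  · simp only [h, if_false]
    exact measurable_pi_apply b

theorem measurable_pair {m : ℕ} (Λ : Finset (Site m)) (σ : Site m → ℝ)
    {f : (Bond m → ℝ) → Bond m → ℝ} (hf : ∀ b, Measurable fun J => f J b) :
    Measurable fun J => pair (f J) Λ σ := by
  unfold pair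
  exact Finset.measurable_fun_sum _ fun b _ => (hf b).mul_const _

theorem plant_flip {m : ℕ} (H : Set (Fin m → ℤ)) (ψ : ℝ → ℝ) (h : Fin m → ℤ) (D : Finset Pt)
    (J : Bond m → ℝ) :
    plant H ψ (flipAt (vert h D) J) = flipAt (vert h D) (plant H ψ J) := by
  classical
  funext b
  unfold plant flipAt
  by_cases hb : b ∈ vert h D
  · have h1 : ¬ (b.2.isLeft ∧ b.1.2 ∈ H) := by
      rintro ⟨h2, -⟩
      have h3 : b.2.isRight = true := hb.1
      cases h4 : b.2 with
      | inl i => rw [h4] at h3; exact absurd h3 (by simp)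
      | inr i => rw [h4] at h2; exact absurd h2 (by simp)
    simp only [if_neg h1, if_pos hb]
  · rw [if_neg hb, if_neg hb]

theorem t_LIP : S_LIP := by
  classical
  intro m Λ τ hτ
  refine ⟨fun J J' => ?_, fun J J' => ?_, fun H ψ β hψ => ⟨?_, ?_⟩, fun H ψ h D J β =>
    ⟨plant_flip H ψ h D J, ?_⟩⟩
  · rw [abs_le]
    have h1 := mx_le Λ hτ J J'
    have h2 := mx_le Λ hτ J' J
    simp only [abs_sub_comm (J' _) (J _)] at h2
    constructor <;> linarith
  · rw [abs_le]
    have h1 := lz_le Λ hτ J J'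
    have h2 := lz_le Λ hτ J' J
    simp only [abs_sub_comm (J' _) (J _)] at h2
    constructor <;> linarith
  · have hne : Λ.powerset.Nonempty := ⟨∅, Finset.empty_mem_powerset Λ⟩
    have h1 := Finset.measurable_sup' (s := Λ.powerset)
      (f := fun T (J : Bond m → ℝ) => pair (plant H ψ J) Λ (sw T τ)) hne
      fun T _ => measurable_pair Λ _ (measurable_plant H hψ)
    have h2 : (fun J : Bond m → ℝ => mx Λ τ (plant H ψ J)) =
        Λ.powerset.sup' hne (fun T (J : Bond m → ℝ) => pair (plant H ψ J) Λ (sw T τ)) := by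
      funext J
      rw [Finset.sup'_apply]
      rfl
    rw [h2]
    exact h1
  · unfold lz
    refine Real.measurable_log.comp (Finset.measurable_fun_sum _ fun T _ => ?_)
    refine Real.measurable_exp.comp (measurable_pair Λ _ fun b => ?_)
    exact (measurable_plant H hψ b).const_smul β
  · funext b
    simp only [Pi.smul_apply, flipAt]
    by_cases hb : b ∈ vert h D
    · rw [if_pos hb, if_pos hb, smul_neg]
    · rw [if_neg hb, if_neg hb]

end Pool.Agent.Q299.SG
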