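import Pool.Agent.Q83.SG.Stm

/-!
# Counting lists of edges with bounded total jump
-/

set_option autoImplicit false

open MeasureTheory ProbabilityTheory Filter
open scoped ENNReal NNReal

namespace Pool.Agent.Q299.SG

open Pool.Agent.Q83.SG

theorem geo (b : ℝ) (hb : 0 < b) (hb1 : b ≤ 1) (T : ℕ) :
    ∑ j ∈ Finset.range (T + 1), Real.exp (-(b * j)) ≤ 2 / b := by
  have h1 : ∀ j : ℕ, Real.exp (-(b * j)) = Real.exp (-b) ^ j := by
    intro j
    rw [← Real.exp_nat_mul]
    congr 1
    ring
  simp only [h1]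
  have hq1 : Real.exp (-b) < 1 := by
    rw [Real.exp_lt_one_iff]
    linarith
  have hq0 : 0 ≤ Real.exp (-b) := (Real.exp_pos _).le
  have h2 : ∑ j ∈ Finset.range (T + 1), Real.exp (-b) ^ j ≤ (1 - Real.exp (-b))⁻¹ := by
    rw [← tsum_geometric_of_lt_one hq0 hq1]
    exact (summable_geometric_of_lt_one hq0 hq1).sum_le_tsum _ fun j _ => pow_nonneg hq0 j
  refine h2.trans ?_
  have h3 : b / 2 ≤ 1 - Real.exp (-b) := by
    have h4 : Real.exp (-b) ≤ (1 + b)⁻¹ := by
      rw [Real.exp_neg]
      exact inv_anti₀ (by linarith) (by linarith [Real.add_one_le_exp b])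
    have h5 : (1 + b)⁻¹ ≤ 1 - b / 2 := by
      rw [inv_le_comm₀ (by linarith) (by linarith)]
      rw [← one_div, div_le_iff₀ (by linarith)]
      nlinarith
    linarith
  calc (1 - Real.exp (-b))⁻¹ ≤ (b / 2)⁻¹ := inv_anti₀ (by positivity) h3
    _ = 2 / b := by rw [inv_div]

theorem line (b : ℝ) (hb : 0 < b) (hb1 : b ≤ 1) (T : ℕ) (s : ℤ) :
    ∑ x ∈ Finset.Icc (s - T) (s + T), Real.exp (-(b * ((x - s).natAbs : ℝ))) ≤ 4 / b := by
  have hsub : Finset.Icc (s - T) (s + T) ⊆
      (Finset.range (T + 1)).image (fun j : ℕ => s + (j : ℤ)) ∪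
        (Finset.range (T + 1)).image (fun j : ℕ => s - (j : ℤ)) := by
    intro x hx
    rw [Finset.mem_Icc] at hx
    rw [Finset.mem_union, Finset.mem_image, Finset.mem_image]
    by_cases h : s ≤ x
    · exact Or.inl ⟨(x - s).toNat, Finset.mem_range.2 (by omega), by omega⟩
    · exact Or.inr ⟨(s - x).toNat, Finset.mem_range.2 (by omega), by omega⟩
  refine (Finset.sum_le_sum_of_subset_of_nonneg hsub fun _ _ _ => (Real.exp_pos _).le).trans ?_
  have h1 := Finset.sum_union_inter (s₁ := (Finset.range (T + 1)).image (fun j : ℕ => s + (j : ℤ)))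
    (s₂ := (Finset.range (T + 1)).image (fun j : ℕ => s - (j : ℤ)))
    (f := fun x : ℤ => Real.exp (-(b * ((x - s).natAbs : ℝ))))
  have h2 : 0 ≤ ∑ x ∈ (Finset.range (T + 1)).image (fun j : ℕ => s + (j : ℤ)) ∩
      (Finset.range (T + 1)).image (fun j : ℕ => s - (j : ℤ)),
      Real.exp (-(b * ((x - s).natAbs : ℝ))) := Finset.sum_nonneg fun _ _ => (Real.exp_pos _).le
  have h3 : ∑ x ∈ (Finset.range (T + 1)).image (fun j : ℕ => s + (j : ℤ)),
      Real.exp (-(b * ((x - s).natAbs : ℝ))) ≤ 2 / b := by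
    rw [Finset.sum_image (fun a _ b _ h => by simpa using h)]
    refine le_trans (le_of_eq ?_) (geo b hb hb1 T)
    refine Finset.sum_congr rfl fun j _ => ?_
    simp
  have h4 : ∑ x ∈ (Finset.range (T + 1)).image (fun j : ℕ => s - (j : ℤ)),
      Real.exp (-(b * ((x - s).natAbs : ℝ))) ≤ 2 / b := by
    rw [Finset.sum_image (fun a _ b _ h => by simpa using h)]
    refine le_trans (le_of_eq ?_) (geo b hb hb1 T)
    refine Finset.sum_congr rfl fun j _ => ?_
    have : (s - (j : ℤ) - s).natAbs = j := by omega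
    rw [this]
  have h5 : 4 / b = 2 / b + 2 / b := by ring
  linarith

/-- The edges at distance at most `T`. -/
noncomputable def ballE (T : ℕ) (s : Pt) : Finset Ed :=
  (Fintype.piFinset fun i => Finset.Icc (s i - T) (s i + T)) ×ˢ Finset.univ

theorem ball_sum (b : ℝ) (hb : 0 < b) (hb1 : b ≤ 1) (T : ℕ) (s : Pt) :
    ∑ c ∈ ballE T s, Real.exp (-(b * ((∑ i, (c.1 i - s i).natAbs : ℕ) : ℝ))) ≤ 192 / b ^ 3 := by
  unfold ballE
  rw [Finset.sum_product]
  simp only [Finset.sum_const, Finset.card_univ, Fintype.card_fin, nsmul_eq_mul]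
  rw [← Finset.mul_sum]
  have h1 : ∀ x : Pt, Real.exp (-(b * ((∑ i, (x i - s i).natAbs : ℕ) : ℝ))) =
      ∏ i, Real.exp (-(b * ((x i - s i).natAbs : ℝ))) := by
    intro x
    rw [← Real.exp_sum]
    congr 1
    push_cast
    rw [Finset.mul_sum, Finset.sum_neg_distrib]
  simp only [h1]
  rw [← Finset.prod_univ_sum (fun i => Finset.Icc (s i - T) (s i + T))
    (fun i x => Real.exp (-(b * ((x - s i).natAbs : ℝ))))]
  have h2 : ∏ i : Fin 3, ∑ x ∈ Finset.Icc (s i - T) (s i + T),
      Real.exp (-(b * ((x - s i).natAbs : ℝ))) ≤ ∏ _i : Fin 3, 4 / b :=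
    Finset.prod_le_prod (fun i _ => Finset.sum_nonneg fun _ _ => (Real.exp_pos _).le)
      fun i _ => line b hb hb1 T (s i)
  rw [Finset.prod_const, Finset.card_univ, Fintype.card_fin] at h2
  calc _ ≤ ((3 : ℕ) : ℝ) * (4 / b) ^ 3 := by gcongr
    _ = 192 / b ^ 3 := by rw [div_pow]; push_cast; ring

theorem t_LISTS : S_LISTS := by
  classical
  intro b hb hb1 n
  induction n with
  | zero =>
    intro T s
    refine ⟨{[]}, fun w hw _ => ?_, ?_⟩
    · rw [Finset.mem_singleton]
      exact List.length_eq_zero_iff.1 hw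
    · rw [Finset.card_singleton, pow_zero, mul_one, Nat.cast_one]
      exact Real.one_le_exp (by positivity)
  | succ n ih =>
    intro T s
    choose F hF hFc using ih
    refine ⟨((ballE T s).filter fun c => ∑ i, (c.1 i - s i).natAbs ≤ T).biUnion fun c =>
      (F (T - ∑ i, (c.1 i - s i).natAbs) c.1).image (List.cons c), fun w hw hj => ?_, ?_⟩
    · cases w with
      | nil => simp at hw
      | cons c w =>
        rw [Finset.mem_biUnion]
        have h1 : ∑ i, (c.1 i - s i).natAbs + jump c.1 w ≤ T := hj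
        have h2 : ∑ i, (c.1 i - s i).natAbs ≤ T := (Nat.le_add_right _ _).trans h1
        refine ⟨c, ?_, ?_⟩
        · rw [Finset.mem_filter]
          refine ⟨?_, h2⟩
          unfold ballE
          rw [Finset.mem_product, Fintype.mem_piFinset]
          refine ⟨fun i => ?_, Finset.mem_univ _⟩
          have h3 : (c.1 i - s i).natAbs ≤ ∑ i, (c.1 i - s i).natAbs :=
            Finset.single_le_sum (f := fun i => (c.1 i - s i).natAbs)
              (fun _ _ => Nat.zero_le _) (Finset.mem_univ i)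
          rw [Finset.mem_Icc]
          omega
        · rw [Finset.mem_image]
          refine ⟨w, hF _ _ w ?_ (by omega), rfl⟩
          simpa using hw
    · have h1 : ∀ c ∈ (ballE T s).filter fun c => ∑ i, (c.1 i - s i).natAbs ≤ T,
          (((F (T - ∑ i, (c.1 i - s i).natAbs) c.1).image (List.cons c)).card : ℝ) ≤
            Real.exp (b * T) * (192 / b ^ 3) ^ n *
              Real.exp (-(b * ((∑ i, (c.1 i - s i).natAbs : ℕ) : ℝ))) := by
        intro c hc
        have h2 := (Finset.mem_filter.1 hc).2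
        have h3 : (((F (T - ∑ i, (c.1 i - s i).natAbs) c.1).image (List.cons c)).card : ℝ) ≤
            ((F (T - ∑ i, (c.1 i - s i).natAbs) c.1).card : ℝ) := by
          exact_mod_cast Finset.card_image_le
        refine (h3.trans (hFc _ _)).trans (le_of_eq ?_)
        rw [Nat.cast_sub h2]
        have h4 : b * ((T : ℝ) - ((∑ i, (c.1 i - s i).natAbs : ℕ) : ℝ)) =
            b * T + -(b * ((∑ i, (c.1 i - s i).natAbs : ℕ) : ℝ)) := by ring
        rw [h4, Real.exp_add]
        ring
      have h2 : ((((ballE T s).filter fun c => ∑ i, (c.1 i - s i).natAbs ≤ T).biUnion fun c =>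
          (F (T - ∑ i, (c.1 i - s i).natAbs) c.1).image (List.cons c)).card : ℝ) ≤
          ∑ c ∈ (ballE T s).filter fun c => ∑ i, (c.1 i - s i).natAbs ≤ T,
            (((F (T - ∑ i, (c.1 i - s i).natAbs) c.1).image (List.cons c)).card : ℝ) := by
        exact_mod_cast Finset.card_biUnion_le
      refine h2.trans ((Finset.sum_le_sum h1).trans ?_)
      rw [← Finset.mul_sum, pow_succ (192 / b ^ 3) n, ← mul_assoc]
      refine mul_le_mul_of_nonneg_left ?_ (by positivity)
      refine le_trans ?_ (ball_sum b hb hb1 T s)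
      exact Finset.sum_le_sum_of_subset_of_nonneg (Finset.filter_subset _ _)
        fun _ _ _ => (Real.exp_pos _).le

end Pool.Agent.Q299.SG
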