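import Pool.Agent.Q83.SG.Stm

/-!
# Peierls argument at positive temperature
-/

set_option autoImplicit false

open MeasureTheory ProbabilityTheory Filter
open scoped ENNReal NNReal

namespace Pool.Agent.Q299.SG

open Pool.Agent.Q83.SG

theorem Zpos {m : ℕ} (Λ : Finset (Site m)) (τ : Site m → ℝ) (J : Bond m → ℝ) :
    0 < ∑ T ∈ Λ.powerset, Real.exp (pair J Λ (sw T τ)) :=
  Finset.sum_pos (fun _ _ => Real.exp_pos _) ⟨∅, Finset.empty_mem_powerset Λ⟩

theorem t_PEI1 (h : S_ENE) : S_PEI1 := by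
  classical
  intro m L hh τ K J hτ hτh hK hJ hlz
  set B := box m L with hB
  set v₀ : Site m := ((0 : Pt), hh) with hv₀
  set U : Finset (Finset Pt) := ((Fintype.piFinset fun _ : Fin 3 =>
    Finset.Icc (-(L : ℤ)) L).powerset).filter
      fun D => Cont D ∧ (D ×ˢ {hh} : Finset (Site m)) ⊆ B with hU
  refine ⟨U, fun D hD => (Finset.mem_filter.1 hD).2.1, ?_⟩
  -- the choice of the contours
  have hch : ∀ T ∈ B.powerset.filter (fun T => v₀ ∈ T), ∃ D ∈ U,
      pair J B (sw T τ) + 2 * K * (bd D).card ≤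
        pair (flipAt (vert hh D) J) B (sw (symmDiff T (D ×ˢ {hh})) τ) := by
    intro T hT
    rw [Finset.mem_filter, Finset.mem_powerset] at hT
    obtain ⟨D, hD1, hD2, hD3⟩ := h m L hh τ T hτ hτh hT.1 hT.2
    refine ⟨D, ?_, hD3 K J hK hJ⟩
    rw [hU, Finset.mem_filter, Finset.mem_powerset]
    refine ⟨fun x hx => ?_, hD1, hD2⟩
    have h1 : ((x, hh) : Site m) ∈ B := hD2 (by simp [hx])
    rw [hB] at h1
    unfold box at h1
    rw [Finset.mem_product] at h1
    exact h1.1
  choose! Dt hDU hDe using hch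
  unfold mis
  rw [div_le_iff₀ (Zpos B τ J)]
  have h1 : ∑ T ∈ B.powerset with v₀ ∈ T, Real.exp (pair J B (sw T τ)) =
      ∑ D ∈ U, ∑ T ∈ B.powerset.filter (fun T => v₀ ∈ T) with Dt T = D,
        Real.exp (pair J B (sw T τ)) :=
    (Finset.sum_fiberwise_of_maps_to (fun T hT => hDU T hT) _).symm
  rw [h1, Finset.sum_mul]
  refine Finset.sum_le_sum fun D hD => ?_
  have hDc : Cont D := (Finset.mem_filter.1 hD).2.1
  have hDB : (D ×ˢ {hh} : Finset (Site m)) ⊆ B := (Finset.mem_filter.1 hD).2.2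
  have h2 : ∑ T ∈ B.powerset.filter (fun T => v₀ ∈ T) with Dt T = D,
      Real.exp (pair J B (sw T τ)) ≤
      ∑ T ∈ B.powerset.filter (fun T => v₀ ∈ T) with Dt T = D,
        Real.exp (-(2 * K * (bd D).card)) *
          Real.exp (pair (flipAt (vert hh D) J) B (sw (symmDiff T (D ×ˢ {hh})) τ)) := by
    refine Finset.sum_le_sum fun T hT => ?_
    rw [Finset.mem_filter] at hT
    have h3 := hDe T hT.1
    rw [hT.2] at h3
    rw [← Real.exp_add]
    exact Real.exp_le_exp.2 (by linarith)
  refine h2.trans ?_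
  rw [← Finset.mul_sum]
  have h4 : ∑ T ∈ B.powerset.filter (fun T => v₀ ∈ T) with Dt T = D,
      Real.exp (pair (flipAt (vert hh D) J) B (sw (symmDiff T (D ×ˢ {hh})) τ)) ≤
      ∑ T ∈ B.powerset, Real.exp (pair (flipAt (vert hh D) J) B (sw T τ)) := by
    have hinj : Function.Injective fun T : Finset (Site m) => symmDiff T (D ×ˢ {hh}) :=
      symmDiff_left_injective _
    rw [← Finset.sum_image (s := (B.powerset.filter (fun T => v₀ ∈ T)).filter
      (fun T => Dt T = D)) (g := fun T : Finset (Site m) => symmDiff T (D ×ˢ {hh}))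
      (f := fun T => Real.exp (pair (flipAt (vert hh D) J) B (sw T τ)))
      (fun a _ b _ hab => hinj hab)]
    refine Finset.sum_le_sum_of_subset_of_nonneg ?_ fun _ _ _ => (Real.exp_pos _).le
    intro T' hT'
    obtain ⟨T, hT, rfl⟩ := Finset.mem_image.1 hT'
    rw [Finset.mem_filter, Finset.mem_filter, Finset.mem_powerset] at hT
    rw [Finset.mem_powerset]
    intro v hv
    rw [Finset.mem_symmDiff] at hv
    rcases hv with hv | hv
    · exact hT.1.1 hv.1
    · exact hDB hv.1
  have h5 : ∑ T ∈ B.powerset, Real.exp (pair (flipAt (vert hh D) J) B (sw T τ)) ≤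
      Real.exp (K * (bd D).card) * ∑ T ∈ B.powerset, Real.exp (pair J B (sw T τ)) := by
    have h6 := hlz D hDc
    rw [abs_le] at h6
    have h7 : Real.log (∑ T ∈ B.powerset, Real.exp (pair (flipAt (vert hh D) J) B (sw T τ))) ≤
        K * (bd D).card + Real.log (∑ T ∈ B.powerset, Real.exp (pair J B (sw T τ))) := by
      have := h6.1
      unfold lz at this
      linarith
    have h8 := Real.exp_le_exp.2 h7
    rwa [Real.exp_log (Zpos B τ _), Real.exp_add, Real.exp_log (Zpos B τ J)] at h8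
  calc Real.exp (-(2 * K * (bd D).card)) *
        ∑ T ∈ B.powerset.filter (fun T => v₀ ∈ T) with Dt T = D,
          Real.exp (pair (flipAt (vert hh D) J) B (sw (symmDiff T (D ×ˢ {hh})) τ))
      ≤ Real.exp (-(2 * K * (bd D).card)) * (Real.exp (K * (bd D).card) *
          ∑ T ∈ B.powerset, Real.exp (pair J B (sw T τ))) :=
        mul_le_mul_of_nonneg_left (h4.trans h5) (Real.exp_pos _).le
    _ = Real.exp (-(K * (bd D).card)) * ∑ T ∈ B.powerset, Real.exp (pair J B (sw T τ)) := by
        rw [← mul_assoc, ← Real.exp_add]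
        congr 2
        ring

end Pool.Agent.Q299.SG
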