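import Pool.Agent.Q83.SG.Stm

/-!
# The sum over contours
-/

set_option autoImplicit false

open MeasureTheory ProbabilityTheory Filter
open scoped ENNReal NNReal

namespace Pool.Agent.Q299.SG

open Pool.Agent.Q83.SG

theorem maj_zero (D : Finset Pt) : maj 0 D = D := by
  ext z
  unfold maj
  rw [Finset.mem_filter, Finset.mem_image]
  have hidx : ∀ x : Pt, idx 0 x = x := by
    intro x
    funext i
    simp [idx]
  constructor
  · rintro ⟨⟨x, hx, hxz⟩, -⟩
    rw [hidx] at hxz
    rw [← hxz]
    exact hx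
  · intro hz
    refine ⟨⟨z, hz, hidx z⟩, ?_⟩
    have h1 : z ∈ D ∩ cube 0 z := by
      rw [Finset.mem_inter]
      refine ⟨hz, ?_⟩
      unfold cube
      rw [Fintype.mem_piFinset]
      intro i
      rw [Finset.mem_Ico]
      simp
    have h2 : 1 ≤ (D ∩ cube 0 z).card := Finset.card_pos.2 ⟨z, h1⟩
    simp only [pow_zero]
    omega

theorem geo_fin (q : ℝ) (hq0 : 0 ≤ q) (hq : q ≤ 1 / 2) (S : Finset ℕ) (hS : ∀ n ∈ S, 1 ≤ n) :
    ∑ n ∈ S, q ^ n ≤ 2 * q := by
  classical
  have hq1 : q < 1 := by linarith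
  have h0 : 0 ∉ S := fun h => absurd (hS 0 h) (by norm_num)
  have h1 : ∑ n ∈ insert 0 S, q ^ n ≤ (1 - q)⁻¹ := by
    rw [← tsum_geometric_of_lt_one hq0 hq1]
    exact (summable_geometric_of_lt_one hq0 hq1).sum_le_tsum _ fun j _ => pow_nonneg hq0 j
  rw [Finset.sum_insert h0, pow_zero] at h1
  have h2 : (1 - q)⁻¹ ≤ 1 + 2 * q := by
    rw [← one_div, div_le_iff₀ (by linarith)]
    nlinarith
  linarith

theorem t_SER (h1 : S_COUNT) (h2 : S_SMALL) : S_SER := by
  classical
  intro ε hε
  obtain ⟨C, hC, hF⟩ := h1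
  have hF' := fun N => hF N 0
  choose F hF1 hF2 using hF'
  set q : ℝ := min (1 / 2) (ε / (2 * C)) with hq
  have hC0 : 0 < C := by linarith
  have hq0 : 0 < q := lt_min (by norm_num) (by positivity)
  have hq2 : q ≤ 1 / 2 := min_le_left _ _
  have hqε : q ≤ ε / (2 * C) := min_le_right _ _
  refine ⟨C + 3 - Real.log q, ?_, fun K hK U hU => ?_⟩
  · have : Real.log q ≤ 0 := Real.log_nonpos hq0.le (by linarith)
    linarith
  -- split according to the number of boundary edges
  have hcard : ∀ D ∈ U, 1 ≤ (bd D).card := fun D hD =>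
    le_trans (by norm_num) (h2.2.1 D ⟨0, (hU D hD).1⟩)
  rw [← Finset.sum_fiberwise_of_maps_to (g := fun D => (bd D).card)
    (t := U.image fun D => (bd D).card) (fun D hD => Finset.mem_image_of_mem _ hD)]
  have hterm : ∀ N ∈ U.image (fun D => (bd D).card),
      ∑ D ∈ U with (bd D).card = N, Real.exp (-(K * (bd D).card)) ≤ C * q ^ N := by
    intro N hN
    have h3 : ∑ D ∈ U with (bd D).card = N, Real.exp (-(K * (bd D).card)) =
        ((U.filter fun D => (bd D).card = N).card : ℝ) * Real.exp (-(K * N)) := by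
      rw [← nsmul_eq_mul, ← Finset.sum_const]
      refine Finset.sum_congr rfl fun D hD => ?_
      rw [(Finset.mem_filter.1 hD).2]
    have h4 : U.filter (fun D => (bd D).card = N) ⊆ F N := by
      intro D hD
      rw [Finset.mem_filter] at hD
      have := hF1 N D (hU D hD.1) hD.2
      rwa [maj_zero] at this
    have h5 : ((U.filter fun D => (bd D).card = N).card : ℝ) ≤
        C * (N + 1) ^ 3 * Real.exp (C * N) := by
      refine (by exact_mod_cast Finset.card_le_card h4 :
        ((U.filter fun D => (bd D).card = N).card : ℝ) ≤ ((F N).card : ℝ)).trans ?_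
      refine (hF2 N).trans (le_of_eq ?_)
      simp
    have h6 : ((N : ℝ) + 1) ^ 3 ≤ Real.exp (3 * N) := by
      have h7 : (N : ℝ) + 1 ≤ Real.exp N := Real.add_one_le_exp _
      calc ((N : ℝ) + 1) ^ 3 ≤ Real.exp N ^ 3 := by gcongr
        _ = Real.exp (3 * N) := by rw [← Real.exp_nat_mul]; norm_num
    have hN0 : (0 : ℝ) ≤ N := by positivity
    rw [h3]
    calc ((U.filter fun D => (bd D).card = N).card : ℝ) * Real.exp (-(K * N))
        ≤ (C * (N + 1) ^ 3 * Real.exp (C * N)) * Real.exp (-(K * N)) := by gcongr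
      _ ≤ (C * Real.exp (3 * N) * Real.exp (C * N)) * Real.exp (-(K * N)) := by gcongr
      _ = C * Real.exp (3 * N + C * N + -(K * N)) := by
          rw [Real.exp_add, Real.exp_add]; ring
      _ ≤ C * Real.exp (N * Real.log q) := by
          gcongr
          nlinarith
      _ = C * q ^ N := by rw [Real.exp_nat_mul, Real.exp_log hq0]
  refine (Finset.sum_le_sum hterm).trans ?_
  rw [← Finset.mul_sum]
  have h8 := geo_fin q hq0.le hq2 (U.image fun D => (bd D).card) (fun N hN => by
    obtain ⟨D, hD, rfl⟩ := Finset.mem_image.1 hN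
    exact hcard D hD)
  calc C * ∑ N ∈ U.image (fun D => (bd D).card), q ^ N ≤ C * (2 * q) := by gcongr
    _ ≤ C * (2 * (ε / (2 * C))) := by gcongr
    _ = ε := by field_simp

end Pool.Agent.Q299.SG
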