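import Pool.Agent.Q83.SG.Stm

/-!
Job TRN1 of project SG (helper83): translation of Gibbs states.
-/

set_option autoImplicit false

open MeasureTheory ProbabilityTheory Filter
open scoped ENNReal NNReal

namespace Pool.Agent.Q299.SG

open Pool.Agent.Q83.SG

theorem mem_bonds' {m : ℕ} (Λ : Finset (Site m)) (b : Bond m) :
    b ∈ bonds Λ ↔ b.1 ∈ Λ ∨ far b ∈ Λ := by
  unfold bonds far
  simp only [Finset.mem_biUnion, Finset.mem_univ, true_and, Finset.mem_insert,
    Finset.mem_singleton]
  constructor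
  · rintro ⟨v, hv, a, h | h⟩
    · left; rw [h]; exact hv
    · right; rw [h]; simpa using hv
  · rintro (h | h)
    · exact ⟨b.1, h, b.2, Or.inl rfl⟩
    · exact ⟨b.1 + dir b.2, h, b.2, Or.inr (by simp)⟩

/-- The translation of the sites. -/
def tr {m : ℕ} (x : Pt) : Site m ≃ Site m where
  toFun v := v - (x, 0)
  invFun v := v + (x, 0)
  left_inv v := by simp
  right_inv v := by simp

/-- The translation of the configurations. -/
def trc {m : ℕ} (x : Pt) (ω : Site m → Bool) : Site m → Bool := fun v => ω (v - (x, 0))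

theorem measurable_trc {m : ℕ} (x : Pt) : Measurable (trc (m := m) x) :=
  measurable_pi_lambda _ fun _ => measurable_pi_apply _

/-- The translation of the configurations is a measurable equivalence. -/
def trE {m : ℕ} (x : Pt) : (Site m → Bool) ≃ᵐ (Site m → Bool) where
  toFun := trc x
  invFun := fun ω v => ω (v + (x, 0))
  left_inv ω := by funext v; simp [trc]
  right_inv ω := by funext v; simp [trc]
  measurable_toFun := measurable_trc x
  measurable_invFun := measurable_pi_lambda _ fun _ => measurable_pi_apply _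

/-- The translate of a finite set. -/
def trL {m : ℕ} (x : Pt) (Λ : Finset (Site m)) : Finset (Site m) := Λ.map (tr x).toEmbedding

theorem mem_trL {m : ℕ} (x : Pt) (Λ : Finset (Site m)) (v : Site m) :
    v - (x, 0) ∈ trL x Λ ↔ v ∈ Λ := by
  unfold trL
  rw [Finset.mem_map]
  constructor
  · rintro ⟨w, hw, h⟩
    have : w = v := (tr x).injective h
    rwa [← this]
  · intro h
    exact ⟨v, h, rfl⟩

theorem mem_trL' {m : ℕ} (x : Pt) (Λ : Finset (Site m)) (v : Site m) :
    v ∈ trL x Λ ↔ v + (x, 0) ∈ Λ := by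
  rw [← mem_trL x Λ (v + (x, 0)), add_sub_cancel_right]

theorem pair_trc {m : ℕ} (x : Pt) (J : Bond m → ℝ) (Λ : Finset (Site m)) (ζ : Site m → Bool) :
    pair J Λ (spin (trc x ζ)) = pair (shift x J) (trL x Λ) (spin ζ) := by
  unfold pair
  refine Finset.sum_bij' (fun b _ => (b.1 - (x, 0), b.2)) (fun b _ => (b.1 + (x, 0), b.2))
    ?_ ?_ ?_ ?_ ?_
  · intro b hb
    rw [mem_bonds'] at hb ⊢
    rcases hb with h | h
    · exact Or.inl ((mem_trL x Λ _).2 h)
    · right
      have : far ((b.1 - (x, 0), b.2) : Bond m) = far b - (x, 0) := by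
        unfold far
        exact sub_add_eq_add_sub _ _ _
      rw [this]
      exact (mem_trL x Λ _).2 h
  · intro b hb
    rw [mem_bonds'] at hb ⊢
    rcases hb with h | h
    · exact Or.inl ((mem_trL' x Λ _).1 h)
    · right
      have : far ((b.1 + (x, 0), b.2) : Bond m) = far b + (x, 0) := by
        unfold far
        exact add_right_comm _ _ _
      rw [this]
      exact (mem_trL' x Λ _).1 h
  · intro b _
    simp
  · intro b _
    simp
  · intro b _
    have h1 : far ((b.1 - (x, 0), b.2) : Bond m) = far b - (x, 0) := by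
      unfold far
      exact sub_add_eq_add_sub _ _ _
    rw [h1]
    unfold shift spin trc
    simp

theorem glue_mem {m : ℕ} (Λ : Finset (Site m)) (η : Λ → Bool) (ω : Site m → Bool) (v : Site m)
    (h : v ∈ Λ) : glue Λ η ω v = η ⟨v, h⟩ := dif_pos h

theorem glue_not_mem {m : ℕ} (Λ : Finset (Site m)) (η : Λ → Bool) (ω : Site m → Bool) (v : Site m)
    (h : v ∉ Λ) : glue Λ η ω v = ω v := dif_neg h

theorem glue_trc {m : ℕ} (x : Pt) (Λ : Finset (Site m)) (η : trL x Λ → Bool)
    (ω : Site m → Bool) :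
    glue Λ (fun v => η ⟨v.1 - (x, 0), (mem_trL x Λ v.1).2 v.2⟩) (trc x ω)
      = trc x (glue (trL x Λ) η ω) := by
  funext v
  have hr : trc x (glue (trL x Λ) η ω) v = glue (trL x Λ) η ω (v - (x, 0)) := rfl
  rw [hr]
  by_cases h : v ∈ Λ
  · rw [glue_mem _ _ _ _ h, glue_mem _ _ _ _ ((mem_trL x Λ v).2 h)]
  · rw [glue_not_mem _ _ _ _ h, glue_not_mem _ _ _ _ (fun h' => h ((mem_trL x Λ v).1 h'))]
    rfl

theorem fv_trc {m : ℕ} (x : Pt) (J : Bond m → ℝ) (Λ : Finset (Site m)) (ω : Site m → Bool)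
    (A : Set (Site m → Bool)) :
    fv J Λ (trc x ω) A = fv (shift x J) (trL x Λ) ω (trc x ⁻¹' A) := by
  let E : (trL x Λ → Bool) ≃ (Λ → Bool) :=
    { toFun := fun η v => η ⟨v.1 - (x, 0), (mem_trL x Λ v.1).2 v.2⟩
      invFun := fun η v => η ⟨v.1 + (x, 0), (mem_trL' x Λ v.1).1 v.2⟩
      left_inv := fun η => by funext v; simp
      right_inv := fun η => by funext v; simp }
  have hE : ∀ η, glue Λ (E η) (trc x ω) = trc x (glue (trL x Λ) η ω) := fun η => glue_trc x Λ η ω
  have h1 : ∑ η : Λ → Bool, Real.exp (pair J Λ (spin (glue Λ η (trc x ω))))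
      = ∑ η : trL x Λ → Bool, Real.exp (pair (shift x J) (trL x Λ) (spin (glue (trL x Λ) η ω))) := by
    rw [← Equiv.sum_comp E]
    refine Finset.sum_congr rfl fun η _ => ?_
    rw [hE, pair_trc]
  have h2 : ∑ η : Λ → Bool, Real.exp (pair J Λ (spin (glue Λ η (trc x ω)))) *
        A.indicator (fun _ => (1 : ℝ)) (glue Λ η (trc x ω))
      = ∑ η : trL x Λ → Bool, Real.exp (pair (shift x J) (trL x Λ) (spin (glue (trL x Λ) η ω))) *
        (trc x ⁻¹' A).indicator (fun _ => (1 : ℝ)) (glue (trL x Λ) η ω) := by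
    rw [← Equiv.sum_comp E]
    refine Finset.sum_congr rfl fun η _ => ?_
    rw [hE, pair_trc]
    rfl
  unfold fv
  rw [h1, h2]

theorem t_TRN1 : S_TRN1 := by
  intro m x J π hπ
  have hp := hπ.1
  change IsGibbs J (π.map (trc x))
  refine ⟨Measure.isProbabilityMeasure_map (measurable_trc x).aemeasurable, fun Λ A hA => ?_⟩
  rw [Measure.map_apply (measurable_trc x) hA,
    hπ.2 (trL x Λ) (trc x ⁻¹' A) (measurable_trc x hA)]
  have h1 : ∫ ω, fv J Λ ω A ∂(π.map (trc x)) = ∫ ω, fv J Λ (trc x ω) A ∂π :=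
    (trE x).measurableEmbedding.integral_map _
  rw [h1]
  refine integral_congr_ae (Eventually.of_forall fun ω => ?_)
  exact (fv_trc x J Λ ω A).symm

end Pool.Agent.Q299.SG
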